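import Mathlib
import Pool.Agent.MP_0f46a6_co.H98.Defs
import Pool.Agent.MP_0f46a6_co.Mg.H98_Main

set_option autoImplicit false

namespace Pool.Agent.Results.MP_0f46a6_co.Canonical

open Pool.Agent.MP_0f46a6_co.H98

/-- Every finite Ramsey set is canonically Ramsey. The hypothesis asks only for a set congruent
to `X` in some dimension; the conclusion holds in all large dimensions, for every set of colours,
with a copy that is the image of `X` under an isometry of the whole space. -/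
theorem result.{u} (k : ℕ) (X : Finset (EuclideanSpace ℝ (Fin k)))
    (hX : ∀ r : ℕ, 1 ≤ r → ∃ n : ℕ, ∀ c : EuclideanSpace ℝ (Fin n) → Fin r,
      ∃ g : EuclideanSpace ℝ (Fin k) → EuclideanSpace ℝ (Fin n),
        (∀ x ∈ X, ∀ y ∈ X, dist (g x) (g y) = dist x y) ∧
        ∀ x ∈ X, ∀ y ∈ X, c (g x) = c (g y)) :
    ∃ n₀ : ℕ, k ≤ n₀ ∧ ∀ n : ℕ, n₀ ≤ n → ∀ (C : Type u) (c : EuclideanSpace ℝ (Fin n) → C),
      ∃ φ : EuclideanSpace ℝ (Fin n) ≃ᵢ EuclideanSpace ℝ (Fin n),
        (∀ y ∈ φ '' (incl k n '' (X : Set (EuclideanSpace ℝ (Fin k)))),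
          ∀ z ∈ φ '' (incl k n '' (X : Set (EuclideanSpace ℝ (Fin k)))), c y = c z) ∨
        Set.InjOn c (φ '' (incl k n '' (X : Set (EuclideanSpace ℝ (Fin k))))) :=
  strong k X hX

end Pool.Agent.Results.MP_0f46a6_co.Canonical
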